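import Mathlib
import Pool.Agent.R139.JacCycle

/-!
# Bases of the Jacobian matroid of a pair of graphs
-/

set_option autoImplicit false

namespace Pool.Agent.Results.MP_305ad1_co.OddCycles

open MvPolynomial SimpleGraph Pool.Agent.R139.JacCycle

universe u

section Defs

variable (F : Type u) [Field F] {n m : ℕ}

/-- The edges `{i, j}`, `i < j`, of the graph `G`. -/
abbrev Edge {n : ℕ} (G : SimpleGraph (Fin n)) : Type :=
  {p : Fin n × Fin n // p.1 < p.2 ∧ G.Adj p.1 p.2}

/-- The binomial `x_{i,k} x_{j,l} - x_{i,l} x_{j,k}` for an edge `{i, j}`, `i < j`, of `G` and an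
edge `{k, l}`, `k < l`, of `H`. -/
noncomputable def gen (G : SimpleGraph (Fin n)) (H : SimpleGraph (Fin m))
    (e : Edge G × Edge H) : MvPolynomial (Fin n × Fin m) F :=
  X (e.1.1.1, e.2.1.1) * X (e.1.1.2, e.2.1.2) - X (e.1.1.1, e.2.1.2) * X (e.1.1.2, e.2.1.1)

/-- The Jacobian matrix `H(G, H)`, over the field of rational functions. -/
noncomputable def jacobian (G : SimpleGraph (Fin n)) (H : SimpleGraph (Fin m)) :
    Matrix (Edge G × Edge H) (Fin n × Fin m) (FractionRing (MvPolynomial (Fin n × Fin m) F)) :=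
  Matrix.of fun e v => algebraMap (MvPolynomial (Fin n × Fin m) F) _ (pderiv v (gen F G H e))

/-- The basis property: the rows of `H(G, H)` are linearly independent and span the row space of
`H(K_n, K_m)`. -/
def BasisProperty (G : SimpleGraph (Fin n)) (H : SimpleGraph (Fin m)) : Prop :=
  LinearIndependent (FractionRing (MvPolynomial (Fin n × Fin m) F)) (jacobian F G H).row ∧
  Submodule.span (FractionRing (MvPolynomial (Fin n × Fin m) F))
    (Set.range (jacobian F G H).row) =
  Submodule.span (FractionRing (MvPolynomial (Fin n × Fin m) F))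
    (Set.range (jacobian F (⊤ : SimpleGraph (Fin n)) (⊤ : SimpleGraph (Fin m))).row)

/-- `G` is a vertex-disjoint union of cycles of odd length: every connected component is
isomorphic to a cycle of odd length `p ≥ 3`. -/
def IsDisjointUnionOfOddCycles {V : Type*} (G : SimpleGraph V) : Prop :=
  ∀ C : G.ConnectedComponent, ∃ p, 3 ≤ p ∧ Odd p ∧ Nonempty (cycleGraph p ≃g C.toSimpleGraph)

end Defs

/-! ### Cycles -/

section Graphs

theorem cycleGraph_ncard {p : ℕ} (hp : 3 ≤ p) (s : Fin p) :
    ((cycleGraph p).neighborSet s).ncard = 2 := by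
  obtain ⟨q, rfl⟩ := Nat.exists_eq_add_of_le' hp
  rw [← Nat.card_coe_set_eq, Nat.card_eq_fintype_card]
  rw [SimpleGraph.card_neighborSet_eq_degree]
  exact cycleGraph_degree_three_le

/-- A connected two-regular finite graph is a cycle. -/
theorem connected_two_regular {V : Type*} [Finite V] {G : SimpleGraph V} (hconn : G.Connected)
    (h2 : ∀ v, (G.neighborSet v).ncard = 2) : ∃ p, 3 ≤ p ∧ Nonempty (cycleGraph p ≃g G) := by
  have hcyc : G.IsCycles := fun v _ => h2 v
  obtain ⟨v⟩ := hconn.nonempty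
  have hne : (G.neighborSet v).Nonempty := by
    apply Set.nonempty_of_ncard_ne_zero
    rw [h2]
    norm_num
  obtain ⟨w, hw, -⟩ := hcyc.exists_cycle_toSubgraph_verts_eq_connectedComponentSupp
    (c := G.connectedComponentMk v) (by simp) hne
  have h3 := hw.three_le_length
  obtain ⟨f⟩ := (cycleGraph_isContained_iff (by omega)).2 ⟨v, w, hw, rfl⟩
  refine ⟨w.length, h3, ?_⟩
  have key : ∀ s, f '' ((cycleGraph w.length).neighborSet s) = G.neighborSet (f s) := by
    intro s
    have hinj : Function.Injective (f : Fin w.length → V) := f.injective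
    refine Set.eq_of_subset_of_ncard_le ?_ ?_ (Set.toFinite _)
    · rintro _ ⟨t, ht, rfl⟩
      exact f.toHom.map_adj ht
    · rw [Set.ncard_image_of_injective _ hinj, cycleGraph_ncard h3, h2]
  have hadj : ∀ s t, G.Adj (f s) (f t) ↔ (cycleGraph w.length).Adj s t := by
    intro s t
    constructor
    · intro h
      have h1 : f t ∈ G.neighborSet (f s) := h
      rw [← key] at h1
      obtain ⟨t', ht', he⟩ := h1
      rwa [← f.injective he]
    · intro h
      exact f.toHom.map_adj h
  have hsurj : Function.Surjective f := by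
    intro u
    have h0 : (0 : ℕ) < w.length := by omega
    obtain ⟨q⟩ := hconn.preconnected (f ⟨0, h0⟩) u
    have : ∀ {a b : V} (q : G.Walk a b), a ∈ Set.range f → b ∈ Set.range f := by
      intro a b q
      induction q with
      | nil => exact id
      | cons h q ih =>
        rintro ⟨s, rfl⟩
        apply ih
        have h1 : _ ∈ G.neighborSet (f s) := h
        rw [← key] at h1
        obtain ⟨t, -, ht⟩ := h1
        exact ⟨t, ht⟩
    exact this q ⟨_, rfl⟩
  exact ⟨⟨Equiv.ofBijective f ⟨f.injective, hsurj⟩, fun {a b} => hadj a b⟩⟩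

theorem ncard_component {V : Type*} {G : SimpleGraph V} (C : G.ConnectedComponent) (v : C.supp) :
    (C.toSimpleGraph.neighborSet v).ncard = (G.neighborSet v).ncard := by
  rw [← Set.ncard_image_of_injective _ (Subtype.val_injective (p := fun x => x ∈ C.supp))]
  congr 1
  ext w
  constructor
  · rintro ⟨x, hx, rfl⟩
    exact hx
  · intro hw
    refine ⟨⟨w, ?_⟩, hw, rfl⟩
    have h1 : G.connectedComponentMk w = G.connectedComponentMk v :=
      (ConnectedComponent.connectedComponentMk_eq_of_adj hw).symm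
    have h2 : G.connectedComponentMk (v : V) = C := v.2
    exact h1.trans h2

end Graphs

/-! ### The kernel of the Jacobian matrix -/

section Kernel

variable (F : Type u) [Field F] {n m : ℕ}

/-- the field of rational functions -/
abbrev KK (n m : ℕ) : Type u := FractionRing (MvPolynomial (Fin n × Fin m) F)

/-- the variables -/
noncomputable def xx (v : Fin n × Fin m) : KK F n m :=
  algebraMap (MvPolynomial (Fin n × Fin m) F) _ (X v)

theorem xx_ne_zero (v : Fin n × Fin m) : xx F v ≠ 0 := by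
  unfold xx
  rw [Ne, IsFractionRing.to_map_eq_zero_iff]
  exact X_ne_zero v

/-- the derivative of a minor -/
noncomputable def br (Y : Fin n × Fin m → KK F n m) (i j : Fin n) (k l : Fin m) : KK F n m :=
  Y (i, k) * xx F (j, l) + xx F (i, k) * Y (j, l) - Y (i, l) * xx F (j, k) -
    xx F (i, l) * Y (j, k)

variable {F}

theorem br_swap (Y : Fin n × Fin m → KK F n m) (i j : Fin n) (k l : Fin m) :
    br F Y j i k l = - br F Y i j k l := by
  unfold br
  ring

theorem br_swap' (Y : Fin n × Fin m → KK F n m) (i j : Fin n) (k l : Fin m) :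
    br F Y i j l k = - br F Y i j k l := by
  unfold br
  ring

theorem pderiv_mul_X {σ : Type*} [DecidableEq σ] (v a b : σ) :
    pderiv v (X a * X b : MvPolynomial σ F) =
      (if v = a then X b else 0) + (if v = b then X a else 0) := by
  rw [Derivation.leibniz, pderiv_X, pderiv_X, smul_eq_mul, smul_eq_mul, Pi.single_apply,
    Pi.single_apply, add_comm]
  congr 1
  · by_cases h : v = a
    · rw [if_pos h, if_pos h.symm, mul_one]
    · rw [if_neg h, if_neg (Ne.symm h), mul_zero]
  · by_cases h : v = b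
    · rw [if_pos h, if_pos h.symm, mul_one]
    · rw [if_neg h, if_neg (Ne.symm h), mul_zero]

theorem mulVec_jacobian {G : SimpleGraph (Fin n)} {H : SimpleGraph (Fin m)}
    (Y : Fin n × Fin m → KK F n m) (r : Edge G × Edge H) :
    (jacobian F G H).mulVec Y r = br F Y r.1.1.1 r.1.1.2 r.2.1.1 r.2.1.2 := by
  have h : ∀ v, jacobian F G H r v =
      (if v = (r.1.1.1, r.2.1.1) then xx F (r.1.1.2, r.2.1.2) else 0) +
      (if v = (r.1.1.2, r.2.1.2) then xx F (r.1.1.1, r.2.1.1) else 0) -
      (if v = (r.1.1.1, r.2.1.2) then xx F (r.1.1.2, r.2.1.1) else 0) -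
      (if v = (r.1.1.2, r.2.1.1) then xx F (r.1.1.1, r.2.1.2) else 0) := by
    intro v
    have hif : ∀ (P : Prop) [Decidable P] (q : MvPolynomial (Fin n × Fin m) F),
        algebraMap (MvPolynomial (Fin n × Fin m) F) (KK F n m) (if P then q else 0) =
          if P then algebraMap _ (KK F n m) q else 0 := by
      intro P _ q
      split_ifs
      · rfl
      · exact map_zero _
    have h1 : jacobian F G H r v = algebraMap (MvPolynomial (Fin n × Fin m) F) (KK F n m)
        (pderiv v (gen F G H r)) := rfl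
    rw [h1, gen, map_sub, pderiv_mul_X, pderiv_mul_X, map_sub, map_add, map_add, hif, hif, hif,
      hif, sub_add_eq_sub_sub]
    rfl
  simp only [Matrix.mulVec, dotProduct, h, add_mul, sub_mul, ite_mul, zero_mul,
    Finset.sum_add_distrib, Finset.sum_sub_distrib, Finset.sum_ite_eq', Finset.mem_univ, if_true]
  unfold br
  ring

/-- `Y` is in the kernel of `H(G, H)`. -/
def Ker (G : SimpleGraph (Fin n)) (H : SimpleGraph (Fin m)) (Y : Fin n × Fin m → KK F n m) :
    Prop :=
  ∀ i j, G.Adj i j → ∀ k l, H.Adj k l → br F Y i j k l = 0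

theorem ker_iff {G : SimpleGraph (Fin n)} {H : SimpleGraph (Fin m)}
    (Y : Fin n × Fin m → KK F n m) : (jacobian F G H).mulVec Y = 0 ↔ Ker G H Y := by
  constructor
  · intro h
    have h1 : ∀ i j, G.Adj i j → i < j → ∀ k l, H.Adj k l → k < l → br F Y i j k l = 0 := by
      intro i j hij hlt k l hkl hlt'
      have := congrFun h (⟨(i, j), hlt, hij⟩, ⟨(k, l), hlt', hkl⟩)
      rwa [mulVec_jacobian] at this
    have h2 : ∀ i j, G.Adj i j → i < j → ∀ k l, H.Adj k l → br F Y i j k l = 0 := by
      intro i j hij hlt k l hkl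
      rcases lt_or_gt_of_ne hkl.ne with h3 | h3
      · exact h1 i j hij hlt k l hkl h3
      · rw [br_swap', h1 i j hij hlt l k hkl.symm h3, neg_zero]
    intro i j hij k l hkl
    rcases lt_or_gt_of_ne hij.ne with h3 | h3
    · exact h2 i j hij h3 k l hkl
    · rw [br_swap, h2 j i hij.symm h3 k l hkl, neg_zero]
  · intro h
    funext r
    rw [mulVec_jacobian]
    exact h _ _ r.1.2.2 _ _ r.2.2.2

/-- The rows span everything if and only if the kernel is trivial. -/
theorem span_eq_top_iff {ι : Type*} {κ : Type*} [Fintype κ] [DecidableEq κ] {K : Type*} [Field K]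
    (M : Matrix ι κ K) :
    Submodule.span K (Set.range M.row) = ⊤ ↔ ∀ Y, M.mulVec Y = 0 → Y = 0 := by
  constructor
  · intro h Y hY
    let f : (κ → K) →ₗ[K] K := ∑ v, Y v • LinearMap.proj v
    have hf : ∀ z, f z = ∑ v, Y v * z v := by
      intro z
      simp [f]
    have h1 : Submodule.span K (Set.range M.row) ≤ LinearMap.ker f := by
      rw [Submodule.span_le]
      rintro _ ⟨r, rfl⟩
      rw [SetLike.mem_coe, LinearMap.mem_ker, hf]
      have := congrFun hY r
      rw [Matrix.mulVec, dotProduct] at this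
      rw [Pi.zero_apply] at this
      rw [← this]
      exact Finset.sum_congr rfl fun v _ => mul_comm _ _
    rw [h, top_le_iff] at h1
    funext v
    have h2 : Pi.single v (1 : K) ∈ LinearMap.ker f := by rw [h1]; trivial
    rw [LinearMap.mem_ker, hf] at h2
    simpa [Pi.single_apply] using h2
  · intro h
    by_contra hne
    obtain ⟨f, hf, hle⟩ := Submodule.exists_le_ker_of_lt_top _ (lt_top_iff_ne_top.2 hne)
    apply hf
    have h1 : ∀ z, f z = ∑ v, z v * f (Pi.single v 1) := by
      intro z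
      have h2 : z = ∑ v, z v • (Pi.single v (1 : K) : κ → K) := by
        funext w
        simp [Finset.sum_apply, Pi.single_apply]
      conv_lhs => rw [h2]
      rw [map_sum]
      refine Finset.sum_congr rfl fun v _ => ?_
      rw [map_smul, smul_eq_mul]
    have h2 : (fun v => f (Pi.single v 1)) = 0 := by
      apply h
      funext r
      have h3 : M.row r ∈ LinearMap.ker f := hle (Submodule.subset_span ⟨r, rfl⟩)
      rw [LinearMap.mem_ker, h1] at h3
      exact h3
    refine LinearMap.ext fun z => ?_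
    rw [h1]
    have h3 : ∀ v, f (Pi.single v 1) = 0 := fun v => congrFun h2 v
    simp [h3]

end Kernel

/-! ### Trivial kernels -/

section Trivial

variable {F : Type u} [Field F] {n m : ℕ}

theorem JM_congr {R : Type*} [CommRing R] {p q : ℕ} {X X' : ℕ → ℕ → R}
    (h : ∀ s < p, ∀ t < q, X s t = X' s t) : JM p q X = JM p q X' := by
  ext a b
  simp only [JM, Matrix.of_apply]
  rw [h _ (sc_lt a.1.2) _ (sc_lt a.2.2), h _ a.1.2 _ a.2.2, h _ (sc_lt a.1.2) _ a.2.2,
    h _ a.1.2 _ (sc_lt a.2.2)]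

theorem exists_inv {V : Type*} {p : ℕ} {c : ℕ → V}
    (hc : ∀ s < p, ∀ s' < p, c s = c s' → s = s') :
    ∃ g : V → ℕ, ∀ s < p, g (c s) = s := by
  classical
  refine ⟨fun v => if h : ∃ s, s < p ∧ c s = v then h.choose else 0, fun s hs => ?_⟩
  have h : ∃ s', s' < p ∧ c s' = c s := ⟨s, hs, rfl⟩
  change (if h : ∃ s', s' < p ∧ c s' = c s then h.choose else 0) = s
  rw [dif_pos h]
  exact hc _ h.choose_spec.1 _ hs h.choose_spec.2

theorem cyc_kernel (h2 : (2 : F) ≠ 0) {p q : ℕ} (hp : 3 ≤ p) (hpo : Odd p) (hq : 3 ≤ q)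
    (hqo : Odd q) {c : ℕ → Fin n} {d : ℕ → Fin m}
    (hc : ∀ s < p, ∀ s' < p, c s = c s' → s = s') (hd : ∀ s < q, ∀ s' < q, d s = d s' → s = s')
    (Y : Fin n × Fin m → KK F n m)
    (h : ∀ s < p, ∀ t < q, br F Y (c s) (c (sc p s)) (d t) (d (sc q t)) = 0) :
    ∀ s < p, ∀ t < q, Y (c s, d t) = 0 := by
  have hj : ∃ j, p = 3 + 2 * j := by
    obtain ⟨k, hk⟩ := hpo
    exact ⟨k - 1, by omega⟩
  have hl : ∃ l, q = 3 + 2 * l := by
    obtain ⟨k, hk⟩ := hqo
    exact ⟨k - 1, by omega⟩
  obtain ⟨j, rfl⟩ := hj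
  obtain ⟨l, rfl⟩ := hl
  have h2' : (2 : AlgebraicClosure F) ≠ 0 := by
    have := (map_ne_zero (algebraMap F (AlgebraicClosure F))).2 h2
    rwa [map_ofNat] at this
  have : Infinite (AlgebraicClosure F) := IsAlgClosed.instInfinite
  obtain ⟨X0, hX0⟩ := exists_TK h2' j l
  rw [tk_iff] at hX0
  obtain ⟨gc, hgc⟩ := exists_inv hc
  obtain ⟨gd, hgd⟩ := exists_inv hd
  have hdet : (JM (3 + 2 * j) (3 + 2 * l) (fun s t =>
      (X (c s, d t) : MvPolynomial (Fin n × Fin m) F))).det ≠ 0 := by
    intro h0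
    apply hX0
    have h1 := map_JM (eval₂Hom (algebraMap F (AlgebraicClosure F))
      (fun v : Fin n × Fin m => X0 (gc v.1) (gd v.2))) (n := 3 + 2 * j) (m := 3 + 2 * l)
      (fun s t => (X (c s, d t) : MvPolynomial (Fin n × Fin m) F))
    rw [h0, map_zero] at h1
    rw [h1]
    congr 1
    apply JM_congr
    intro s hs t ht
    rw [coe_eval₂Hom, eval₂_X, hgc s hs, hgd t ht]
  have hdet' : (JM (3 + 2 * j) (3 + 2 * l) (fun s t => xx F (c s, d t))).det ≠ 0 := by
    have h1 := map_JM (algebraMap (MvPolynomial (Fin n × Fin m) F) (KK F n m))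
      (n := 3 + 2 * j) (m := 3 + 2 * l)
      (fun s t => (X (c s, d t) : MvPolynomial (Fin n × Fin m) F))
    change _ = (JM (3 + 2 * j) (3 + 2 * l) (fun s t => xx F (c s, d t))).det at h1
    rw [← h1, Ne, IsFractionRing.to_map_eq_zero_iff]
    exact hdet
  exact tk_iff.2 hdet' (fun s t => Y (c s, d t)) h

/-- a vertex lies on an odd cycle -/
def OnCycle {V : Type*} (G : SimpleGraph V) (v : V) : Prop :=
  ∃ (p : ℕ) (c : ℕ → V), 3 ≤ p ∧ Odd p ∧ (∀ s < p, ∀ s' < p, c s = c s' → s = s') ∧
    (∀ s < p, G.Adj (c s) (c (sc p s))) ∧ ∃ s < p, c s = v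

theorem trivial_kernel (h2 : (2 : F) ≠ 0) {G : SimpleGraph (Fin n)} {H : SimpleGraph (Fin m)}
    (hG : ∀ v, OnCycle G v) (hH : ∀ v, OnCycle H v) {Y : Fin n × Fin m → KK F n m}
    (hY : Ker G H Y) : Y = 0 := by
  funext v
  obtain ⟨i, k⟩ := v
  obtain ⟨p, c, hp, hpo, hc, hadj, s, hs, rfl⟩ := hG i
  obtain ⟨q, d, hq, hqo, hd, hadj', t, ht, rfl⟩ := hH k
  exact cyc_kernel h2 hp hpo hq hqo hc hd Y
    (fun s hs t ht => hY _ _ (hadj s hs) _ _ (hadj' t ht)) s hs t ht

theorem onCycle_top (hn : 3 ≤ n) (v : Fin n) : OnCycle (⊤ : SimpleGraph (Fin n)) v := by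
  have hinj : ∀ s < 3, ∀ s' < 3, (v.1 + s) % n = (v.1 + s') % n → s = s' := by
    intro s hs s' hs' h
    have h1 : s ≡ s' [MOD n] := Nat.ModEq.add_left_cancel' v.1 h
    exact Nat.ModEq.eq_of_lt_of_lt h1 (by omega) (by omega)
  refine ⟨3, fun s => ⟨(v.1 + s) % n, Nat.mod_lt _ (by omega)⟩, le_refl 3, by decide, ?_, ?_, 0,
    by norm_num, ?_⟩
  · intro s hs s' hs' h
    exact hinj s hs s' hs' (congrArg Fin.val h)
  · intro s hs
    rw [SimpleGraph.top_adj]
    intro h
    have h1 := hinj s hs _ (sc_lt hs) (congrArg Fin.val h)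
    unfold sc at h1
    split_ifs at h1 <;> omega
  · apply Fin.ext
    exact Nat.mod_eq_of_lt v.2

theorem cyc_adj {p : ℕ} (hp : 3 ≤ p) (s : Fin p) : (cycleGraph p).Adj s (sf s) := by
  obtain ⟨q, rfl⟩ := Nat.exists_eq_add_of_le' hp
  have h1 : sf s = s + 1 := by
    apply Fin.ext
    rw [Fin.val_add_one]
    unfold sf sc
    simp only [Fin.ext_iff, Fin.val_last]
    by_cases h : s.1 + 1 = q + 3
    · rw [if_pos h, if_pos (by omega)]
    · rw [if_neg h, if_neg (by omega)]
  rw [h1, cycleGraph_adj]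
  right
  exact add_sub_cancel_left _ _

theorem onCycle_of {V : Type*} {G : SimpleGraph V} (hG : IsDisjointUnionOfOddCycles G) (v : V) :
    OnCycle G v := by
  obtain ⟨p, hp, hpo, ⟨e⟩⟩ := hG (G.connectedComponentMk v)
  have h0 : 0 < p := by omega
  have hmod : ∀ s, s < p → (⟨s % p, Nat.mod_lt _ h0⟩ : Fin p) = ⟨s % p, Nat.mod_lt _ h0⟩ :=
    fun _ _ => rfl
  refine ⟨p, fun s => (e ⟨s % p, Nat.mod_lt _ h0⟩).1, hp, hpo, ?_, ?_, ?_⟩
  · intro s hs s' hs' h
    have h1 := congrArg Fin.val (e.injective (Subtype.ext h))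
    simpa [Nat.mod_eq_of_lt hs, Nat.mod_eq_of_lt hs'] using h1
  · intro s hs
    have h1 := e.map_rel_iff.2 (cyc_adj hp ⟨s, hs⟩)
    have h2 : (⟨s % p, Nat.mod_lt _ h0⟩ : Fin p) = ⟨s, hs⟩ := Fin.ext (Nat.mod_eq_of_lt hs)
    have h3 : (⟨sc p s % p, Nat.mod_lt _ h0⟩ : Fin p) = sf ⟨s, hs⟩ :=
      Fin.ext (Nat.mod_eq_of_lt (sc_lt hs))
    simp only [h2, h3]
    exact h1
  · refine ⟨(e.symm ⟨v, rfl⟩).1, (e.symm ⟨v, rfl⟩).2, ?_⟩
    have h2 : (⟨(e.symm ⟨v, rfl⟩).1 % p, Nat.mod_lt _ h0⟩ : Fin p) = e.symm ⟨v, rfl⟩ :=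
      Fin.ext (Nat.mod_eq_of_lt (e.symm ⟨v, rfl⟩).2)
    simp only [h2]
    rw [RelIso.apply_symm_apply]

theorem ncard_of {V : Type*} {G : SimpleGraph V} (hG : IsDisjointUnionOfOddCycles G) (v : V) :
    (G.neighborSet v).ncard = 2 := by
  obtain ⟨p, hp, hpo, ⟨e⟩⟩ := hG (G.connectedComponentMk v)
  rw [← ncard_component (G.connectedComponentMk v) ⟨v, rfl⟩]
  rw [← cycleGraph_ncard hp (e.symm ⟨v, rfl⟩),
    ← Set.ncard_image_of_injective _ e.injective]
  congr 1
  ext w
  constructor
  · intro hw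
    refine ⟨e.symm w, ?_, e.apply_symm_apply w⟩
    rw [SimpleGraph.mem_neighborSet, ← e.map_rel_iff, RelIso.apply_symm_apply,
      RelIso.apply_symm_apply]
    exact hw
  · rintro ⟨x, hx, rfl⟩
    have := e.map_rel_iff.2 hx
    rwa [RelIso.apply_symm_apply] at this

end Trivial

/-! ### Counting edges -/

section Count

variable {n : ℕ}

theorem card_edge (G : SimpleGraph (Fin n)) : Nat.card (Edge G) = Nat.card G.edgeSet := by
  refine Nat.card_congr (Equiv.ofBijective
    (fun e : Edge G => (⟨s(e.1.1, e.1.2), e.2.2⟩ : G.edgeSet)) ⟨?_, ?_⟩)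
  · rintro ⟨⟨a, b⟩, hab, h⟩ ⟨⟨c, d⟩, hcd, h'⟩ heq
    have h1 : s(a, b) = s(c, d) := congrArg Subtype.val heq
    rw [Sym2.eq_iff] at h1
    apply Subtype.ext
    rcases h1 with ⟨rfl, rfl⟩ | ⟨rfl, rfl⟩
    · rfl
    · exact absurd hab (not_lt.2 (le_of_lt hcd))
  · rintro ⟨e, he⟩
    induction e using Sym2.ind with
    | _ a b =>
      rcases lt_or_gt_of_ne (G.ne_of_adj he) with h | h
      · exact ⟨⟨(a, b), h, he⟩, rfl⟩
      · exact ⟨⟨(b, a), h, SimpleGraph.Adj.symm he⟩, Subtype.ext Sym2.eq_swap⟩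

theorem two_mul_card_edge (G : SimpleGraph (Fin n)) :
    2 * Nat.card (Edge G) = ∑ v, (G.neighborSet v).ncard := by
  classical
  rw [card_edge, Nat.card_eq_fintype_card, ← SimpleGraph.edgeFinset_card,
    ← SimpleGraph.sum_degrees_eq_twice_card_edges]
  refine Finset.sum_congr rfl fun v _ => ?_
  rw [← Nat.card_coe_set_eq, Nat.card_eq_fintype_card, SimpleGraph.card_neighborSet_eq_degree]

end Count

/-! ### The theorem -/

section Main

variable {F : Type u} [Field F] {n m : ℕ}

theorem span_top_complete (h2 : (2 : F) ≠ 0) (hn : 3 ≤ n) (hm : 3 ≤ m) :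
    Submodule.span (KK F n m)
      (Set.range (jacobian F (⊤ : SimpleGraph (Fin n)) (⊤ : SimpleGraph (Fin m))).row) = ⊤ := by
  rw [span_eq_top_iff]
  intro Y hY
  exact trivial_kernel h2 (onCycle_top hn) (onCycle_top hm) ((ker_iff Y).1 hY)

theorem basis_iff (h2 : (2 : F) ≠ 0) (hn : 3 ≤ n) (hm : 3 ≤ m) (G : SimpleGraph (Fin n))
    (H : SimpleGraph (Fin m)) :
    BasisProperty F G H ↔ LinearIndependent (KK F n m) (jacobian F G H).row ∧
      ∀ Y : Fin n × Fin m → KK F n m, Ker G H Y → Y = 0 := by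
  unfold BasisProperty
  rw [span_top_complete h2 hn hm, span_eq_top_iff]
  simp only [ker_iff]

theorem if_part (h2 : (2 : F) ≠ 0) (hn : 3 ≤ n) (hm : 3 ≤ m) {G : SimpleGraph (Fin n)}
    {H : SimpleGraph (Fin m)} (hG : IsDisjointUnionOfOddCycles G)
    (hH : IsDisjointUnionOfOddCycles H) : BasisProperty F G H := by
  classical
  rw [basis_iff h2 hn hm]
  have hk : ∀ Y : Fin n × Fin m → KK F n m, Ker G H Y → Y = 0 :=
    fun Y hY => trivial_kernel h2 (onCycle_of hG) (onCycle_of hH) hY
  refine ⟨?_, hk⟩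
  apply linearIndependent_of_top_le_span_of_card_eq_finrank
  · rw [top_le_iff, span_eq_top_iff]
    intro Y hY
    exact hk Y ((ker_iff Y).1 hY)
  · have h1 : Nat.card (Edge G) = n := by
      have := two_mul_card_edge G
      simp only [ncard_of hG, Finset.sum_const, Finset.card_univ, Fintype.card_fin,
        smul_eq_mul] at this
      omega
    have h3 : Nat.card (Edge H) = m := by
      have := two_mul_card_edge H
      simp only [ncard_of hH, Finset.sum_const, Finset.card_univ, Fintype.card_fin,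
        smul_eq_mul] at this
      omega
    rw [Module.finrank_fintype_fun_eq_card, ← Nat.card_eq_fintype_card, Nat.card_prod, h1, h3,
      Fintype.card_prod, Fintype.card_fin, Fintype.card_fin]

/-- a leaf of `G` gives a nontrivial kernel vector -/
theorem leaf_left {G : SimpleGraph (Fin n)} {H : SimpleGraph (Fin m)} (hm : 3 ≤ m) {v : Fin n}
    (hv : (G.neighborSet v).ncard = 1) : ∃ Y, Ker (F := F) G H Y ∧ Y ≠ 0 := by
  obtain ⟨u, hu⟩ := Set.ncard_eq_one.1 hv
  have huv : G.Adj v u := by
    have : u ∈ G.neighborSet v := by rw [hu]; rfl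
    exact this
  have hadj : ∀ w, G.Adj v w → w = u := by
    intro w hw
    have : w ∈ G.neighborSet v := hw
    rw [hu] at this
    exact this
  have hne : v ≠ u := huv.ne
  refine ⟨fun w => if w.1 = v then xx F (u, w.2) else 0, ?_, ?_⟩
  · intro i j hij k l hkl
    unfold br
    by_cases hi : i = v
    · subst hi
      have hj := hadj j hij
      subst hj
      simp only [if_true, if_neg (Ne.symm hne)]
      ring
    · by_cases hj : j = v
      · subst hj
        have hi' := hadj i hij.symm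
        subst hi'
        simp only [if_true, if_neg (Ne.symm hne)]
        ring
      · simp only [if_neg hi, if_neg hj]
        ring
  · intro h
    have := congrFun h (v, ⟨0, by omega⟩)
    simp only [if_true, Pi.zero_apply] at this
    exact xx_ne_zero _ _ this

theorem leaf_right {G : SimpleGraph (Fin n)} {H : SimpleGraph (Fin m)} (hn : 3 ≤ n) {v : Fin m}
    (hv : (H.neighborSet v).ncard = 1) : ∃ Y, Ker (F := F) G H Y ∧ Y ≠ 0 := by
  obtain ⟨u, hu⟩ := Set.ncard_eq_one.1 hv
  have huv : H.Adj v u := by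
    have : u ∈ H.neighborSet v := by rw [hu]; rfl
    exact this
  have hadj : ∀ w, H.Adj v w → w = u := by
    intro w hw
    have : w ∈ H.neighborSet v := hw
    rw [hu] at this
    exact this
  have hne : v ≠ u := huv.ne
  refine ⟨fun w => if w.2 = v then xx F (w.1, u) else 0, ?_, ?_⟩
  · intro k l hkl i j hij
    unfold br
    by_cases hi : i = v
    · subst hi
      have hj := hadj j hij
      subst hj
      simp only [if_true, if_neg (Ne.symm hne)]
      ring
    · by_cases hj : j = v
      · subst hj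
        have hi' := hadj i hij.symm
        subst hi'
        simp only [if_true, if_neg (Ne.symm hne)]
        ring
      · simp only [if_neg hi, if_neg hj]
        ring
  · intro h
    have := congrFun h (⟨0, by omega⟩, v)
    simp only [if_true, Pi.zero_apply] at this
    exact xx_ne_zero _ _ this

/-- a bipartite component of `G` gives a nontrivial kernel vector -/
theorem bip_left {G : SimpleGraph (Fin n)} {H : SimpleGraph (Fin m)} (hm : 3 ≤ m)
    {ε : Fin n → F} (hε : ∀ i j, G.Adj i j → ε j = - ε i) {v : Fin n} (hv : ε v ≠ 0) :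
    ∃ Y, Ker (F := F) G H Y ∧ Y ≠ 0 := by
  refine ⟨fun w => algebraMap F (KK F n m) (ε w.1) * xx F w, ?_, ?_⟩
  · intro i j hij k l hkl
    unfold br
    simp only [hε i j hij, map_neg]
    ring
  · intro h
    have := congrFun h (v, ⟨0, by omega⟩)
    simp only [Pi.zero_apply, mul_eq_zero, map_eq_zero] at this
    rcases this with h1 | h1
    · exact hv h1
    · exact xx_ne_zero _ _ h1

theorem bip_right {G : SimpleGraph (Fin n)} {H : SimpleGraph (Fin m)} (hn : 3 ≤ n)
    {ε : Fin m → F} (hε : ∀ i j, H.Adj i j → ε j = - ε i) {v : Fin m} (hv : ε v ≠ 0) :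
    ∃ Y, Ker (F := F) G H Y ∧ Y ≠ 0 := by
  refine ⟨fun w => algebraMap F (KK F n m) (ε w.2) * xx F w, ?_, ?_⟩
  · intro i j hij k l hkl
    unfold br
    simp only [hε k l hkl, map_neg]
    ring
  · intro h
    have := congrFun h (⟨0, by omega⟩, v)
    simp only [Pi.zero_apply, mul_eq_zero, map_eq_zero] at this
    rcases this with h1 | h1
    · exact hv h1
    · exact xx_ne_zero _ _ h1

/-- A two-regular graph without a nonzero alternating function is a disjoint union of odd
cycles. -/
theorem odd_cycles_of {V : Type*} [Finite V] {G : SimpleGraph V}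
    (h2 : ∀ v, (G.neighborSet v).ncard = 2)
    (hε : ∀ ε : V → F, (∀ i j, G.Adj i j → ε j = - ε i) → ∀ v, ε v = 0) :
    IsDisjointUnionOfOddCycles G := by
  classical
  intro C
  obtain ⟨p, hp, ⟨e⟩⟩ := connected_two_regular C.connected_toSimpleGraph
    (fun v => (ncard_component C v).trans (h2 v))
  refine ⟨p, hp, ?_, ⟨e⟩⟩
  by_contra hodd
  rw [Nat.not_odd_iff_even] at hodd
  have col : (cycleGraph p).Coloring Bool := cycleGraph.bicoloring_of_even p hodd
  let ε : V → F := fun v => if h : v ∈ C.supp then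
    (if col (e.symm ⟨v, h⟩) then 1 else -1) else 0
  have h1 : ∀ i j, G.Adj i j → ε j = - ε i := by
    intro i j hij
    have hmem : i ∈ C.supp ↔ j ∈ C.supp := by
      have h3 : G.connectedComponentMk i = G.connectedComponentMk j :=
        ConnectedComponent.connectedComponentMk_eq_of_adj hij
      constructor
      · intro h
        exact h3.symm.trans h
      · intro h
        exact h3.trans h
    by_cases hi : i ∈ C.supp
    · have hj := hmem.1 hi
      simp only [ε, dif_pos hi, dif_pos hj]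
      have h4 : (cycleGraph p).Adj (e.symm ⟨i, hi⟩) (e.symm ⟨j, hj⟩) := by
        rw [← e.map_rel_iff, RelIso.apply_symm_apply, RelIso.apply_symm_apply]
        exact hij
      have h5 := col.valid h4
      revert h5
      cases col (e.symm ⟨i, hi⟩) <;> cases col (e.symm ⟨j, hj⟩) <;> simp
    · have hj : j ∉ C.supp := fun h => hi (hmem.2 h)
      simp only [ε, dif_neg hi, dif_neg hj, neg_zero]
  obtain ⟨v⟩ := C.connected_toSimpleGraph.nonempty
  have h3 := hε ε h1 v.1
  have hv : (v : V) ∈ C.supp := v.2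
  simp only [ε, dif_pos hv] at h3
  revert h3
  split_ifs <;> simp

theorem two_le_ncard {V : Type*} [Finite V] {G : SimpleGraph V} (h : ∀ v, ∃ w, G.Adj v w)
    (h1 : ∀ v, (G.neighborSet v).ncard ≠ 1) (v : V) : 2 ≤ (G.neighborSet v).ncard := by
  have h2 : (G.neighborSet v).ncard ≠ 0 := by
    rw [Ne, Set.ncard_eq_zero (Set.toFinite _)]
    intro h3
    obtain ⟨w, hw⟩ := h v
    have : w ∈ G.neighborSet v := hw
    rw [h3] at this
    exact this
  have := h1 v
  omega

theorem only_if_part (h2 : (2 : F) ≠ 0) (hn : 3 ≤ n) (hm : 3 ≤ m) {G : SimpleGraph (Fin n)}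
    {H : SimpleGraph (Fin m)} (hG : ∀ v, ∃ w, G.Adj v w) (hH : ∀ v, ∃ w, H.Adj v w)
    (h : BasisProperty F G H) : IsDisjointUnionOfOddCycles G ∧ IsDisjointUnionOfOddCycles H := by
  classical
  rw [basis_iff h2 hn hm] at h
  obtain ⟨hli, hk⟩ := h
  have hspan : Submodule.span (KK F n m) (Set.range (jacobian F G H).row) = ⊤ := by
    rw [span_eq_top_iff]
    intro Y hY
    exact hk Y ((ker_iff Y).1 hY)
  have hcard : Nat.card (Edge G) * Nat.card (Edge H) = n * m := by
    have h3 := finrank_span_eq_card hli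
    rw [hspan, finrank_top, Module.finrank_fintype_fun_eq_card, ← Nat.card_eq_fintype_card,
      ← Nat.card_eq_fintype_card, Nat.card_prod, Nat.card_prod, Nat.card_fin, Nat.card_fin] at h3
    exact h3.symm
  have hG2 : ∀ v, 2 ≤ (G.neighborSet v).ncard := by
    apply two_le_ncard hG
    intro v hv
    obtain ⟨Y, hY, hY0⟩ := leaf_left (F := F) (H := H) hm hv
    exact hY0 (hk Y hY)
  have hH2 : ∀ v, 2 ≤ (H.neighborSet v).ncard := by
    apply two_le_ncard hH
    intro v hv
    obtain ⟨Y, hY, hY0⟩ := leaf_right (F := F) (G := G) hn hv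
    exact hY0 (hk Y hY)
  have hsumG : n ≤ Nat.card (Edge G) := by
    have h3 := two_mul_card_edge G
    have h4 : ∑ v : Fin n, 2 ≤ ∑ v, (G.neighborSet v).ncard := Finset.sum_le_sum fun v _ => hG2 v
    simp only [Finset.sum_const, Finset.card_univ, Fintype.card_fin, smul_eq_mul] at h4
    omega
  have hsumH : m ≤ Nat.card (Edge H) := by
    have h3 := two_mul_card_edge H
    have h4 : ∑ v : Fin m, 2 ≤ ∑ v, (H.neighborSet v).ncard := Finset.sum_le_sum fun v _ => hH2 v
    simp only [Finset.sum_const, Finset.card_univ, Fintype.card_fin, smul_eq_mul] at h4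
    omega
  have hEG : Nat.card (Edge G) = n := by
    by_contra hne
    have h3 : n < Nat.card (Edge G) := lt_of_le_of_ne hsumG (Ne.symm hne)
    have h4 : n * m < Nat.card (Edge G) * Nat.card (Edge H) := Nat.mul_lt_mul_of_lt_of_le h3 hsumH (by omega)
    omega
  have hEH : Nat.card (Edge H) = m := by
    rw [hEG] at hcard
    exact Nat.eq_of_mul_eq_mul_left (by omega) hcard
  have hG3 : ∀ v, (G.neighborSet v).ncard = 2 := by
    have h3 : ∑ v : Fin n, 2 = ∑ v, (G.neighborSet v).ncard := by
      rw [← two_mul_card_edge G, hEG]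
      simp only [Finset.sum_const, Finset.card_univ, Fintype.card_fin, smul_eq_mul]
      ring
    intro v
    exact ((Finset.sum_eq_sum_iff_of_le (fun v _ => hG2 v)).1 h3 v (Finset.mem_univ v)).symm
  have hH3 : ∀ v, (H.neighborSet v).ncard = 2 := by
    have h3 : ∑ v : Fin m, 2 = ∑ v, (H.neighborSet v).ncard := by
      rw [← two_mul_card_edge H, hEH]
      simp only [Finset.sum_const, Finset.card_univ, Fintype.card_fin, smul_eq_mul]
      ring
    intro v
    exact ((Finset.sum_eq_sum_iff_of_le (fun v _ => hH2 v)).1 h3 v (Finset.mem_univ v)).symm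
  constructor
  · refine odd_cycles_of (F := F) hG3 ?_
    intro ε hε v
    by_contra hv
    obtain ⟨Y, hY, hY0⟩ := bip_left (F := F) (G := G) (H := H) hm hε hv
    exact hY0 (hk Y hY)
  · refine odd_cycles_of (F := F) hH3 ?_
    intro ε hε v
    by_contra hv
    obtain ⟨Y, hY, hY0⟩ := bip_right (F := F) (G := G) (H := H) hn hε hv
    exact hY0 (hk Y hY)

end Main

/-- **Theorem.** Let `F` be a field of characteristic different from two, `n, m ≥ 3`, and let
`G`, `H` be graphs without isolated vertices on `[n]`, `[m]`.  The pair `(G, H)` has the basis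
property if and only if each of `G` and `H` is a vertex-disjoint union of cycles of odd length. -/
theorem result (F : Type u) [Field F] (h2 : (2 : F) ≠ 0) (n m : ℕ) (hn : 3 ≤ n) (hm : 3 ≤ m)
    (G : SimpleGraph (Fin n)) (H : SimpleGraph (Fin m)) (hG : ∀ v, ∃ w, G.Adj v w)
    (hH : ∀ v, ∃ w, H.Adj v w) :
    BasisProperty F G H ↔ IsDisjointUnionOfOddCycles G ∧ IsDisjointUnionOfOddCycles H :=
  ⟨only_if_part h2 hn hm hG hH, fun h => if_part h2 hn hm h.1 h.2⟩

end Pool.Agent.Results.MP_305ad1_co.OddCycles
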